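import Pool.Agent.V5helper87.ZM.Stm

/-!
# Project ZM, job FRM: the frame of `C*_r(C) ⊆ C*_r(G)`
-/

set_option autoImplicit false

open scoped Matrix ENNReal
open Filter Topology

namespace Pool.Agent.V5helper1.ZM

open Pool.Agent.H919R4.ZS Pool.Agent.TH38.CX Pool.Agent.TH38.CX.Cond Pool.Agent.V5helper87.ZM

noncomputable section

variable {G : Type} [Group G] (H : Subgroup G)

/-- the pairs of operators compatible with the restrictions and the extension by zero -/
def Gs : Subring ((L2 H →L[ℂ] L2 H) × (L2 G →L[ℂ] L2 G)) where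
  carrier := {p | p ∈ Gr H ∧ ∀ f, p.2 (ext H f) = ext H (p.1 f)}
  mul_mem' := by
    rintro ⟨a, a'⟩ ⟨b, b'⟩ ⟨ha, ha'⟩ ⟨hb, hb'⟩
    refine ⟨(Gr H).mul_mem ha hb, fun f => ?_⟩
    have ha2 : ∀ f, a' (ext H f) = ext H (a f) := ha'
    have hb2 : ∀ f, b' (ext H f) = ext H (b f) := hb'
    change a' (b' (ext H f)) = ext H (a (b f))
    rw [hb2, ha2]
  one_mem' := ⟨(Gr H).one_mem, fun f => rfl⟩
  add_mem' := by
    rintro ⟨a, a'⟩ ⟨b, b'⟩ ⟨ha, ha'⟩ ⟨hb, hb'⟩
    refine ⟨(Gr H).add_mem ha hb, fun f => ?_⟩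
    have ha2 : ∀ f, a' (ext H f) = ext H (a f) := ha'
    have hb2 : ∀ f, b' (ext H f) = ext H (b f) := hb'
    change a' (ext H f) + b' (ext H f) = ext H (a f + b f)
    rw [hb2, ha2, map_add]
  zero_mem' := by
    refine ⟨(Gr H).zero_mem, fun f => ?_⟩
    change 0 = ext H 0
    rw [map_zero]
  neg_mem' := by
    rintro ⟨a, a'⟩ ⟨ha, ha'⟩
    refine ⟨(Gr H).neg_mem ha, fun f => ?_⟩
    have ha2 : ∀ f, a' (ext H f) = ext H (a f) := ha'
    change - a' (ext H f) = ext H (- a f)
    rw [ha2, map_neg]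

lemma grp_le : (groupRing H : Subring (L2 H →L[ℂ] L2 H)) ≤
    (Gs H).map (RingHom.fst (L2 H →L[ℂ] L2 H) (L2 G →L[ℂ] L2 G)) := by
  refine Subring.closure_le.2 ?_
  rintro _ ⟨c, h, rfl⟩
  refine ⟨(c • lregL h, c • lregL (h : G)), ⟨Gr_lreg H c h, fun f => ?_⟩, rfl⟩
  change c • lregL (h : G) (ext H f) = ext H (c • lregL h f)
  rw [lregL_ext, map_smul]

lemma ext_rel {a : L2 H →L[ℂ] L2 H} (ha : a ∈ (redCstar H : Subring (L2 H →L[ℂ] L2 H)))
    {b : L2 G →L[ℂ] L2 G} (hb : (a, b) ∈ Gr H) (f : L2 H) : b (ext H f) = ext H (a f) := by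
  have hcl : a ∈ closure {T : L2 H →L[ℂ] L2 H | T ∈ (groupRing H : Subring (Op H))} := ha
  obtain ⟨s, hs, hlim⟩ := mem_closure_iff_seq_limit.1 hcl
  have hex : ∀ n, ∃ t, (s n, t) ∈ Gs H := by
    intro n
    obtain ⟨⟨x, y⟩, hx, he⟩ := grp_le H (hs n)
    have : x = s n := he
    subst this
    exact ⟨y, hx⟩
  choose t ht using hex
  have h1 : ∀ n, ‖b (ext H f) - ext H (a f)‖ ≤ 2 * ‖a - s n‖ * ‖f‖ := by
    intro n
    have e1 : ‖b - t n‖ ≤ ‖a - s n‖ := rel_norm H ((Gr H).sub_mem hb (ht n).1).1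
    have e2 : t n (ext H f) = ext H (s n f) := (ht n).2 f
    have e3 : b (ext H f) - ext H (a f) = (b - t n) (ext H f) - ext H ((a - s n) f) := by
      change b (ext H f) - ext H (a f) = (b (ext H f) - t n (ext H f)) - ext H (a f - s n f)
      rw [map_sub, e2]
      abel
    have e4 : ‖(b - t n) (ext H f)‖ ≤ ‖a - s n‖ * ‖f‖ :=
      ((b - t n).le_opNorm _).trans
        (mul_le_mul e1 (norm_extL H f) (norm_nonneg _) (norm_nonneg _))
    have e5 : ‖ext H ((a - s n) f)‖ ≤ ‖a - s n‖ * ‖f‖ :=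
      (norm_extL H _).trans ((a - s n).le_opNorm f)
    rw [e3]
    calc ‖(b - t n) (ext H f) - ext H ((a - s n) f)‖
        ≤ ‖(b - t n) (ext H f)‖ + ‖ext H ((a - s n) f)‖ := norm_sub_le _ _
      _ ≤ 2 * ‖a - s n‖ * ‖f‖ := by linarith
  have h2 : Tendsto (fun n => 2 * ‖a - s n‖ * ‖f‖) atTop (𝓝 0) := by
    have h3 : Tendsto (fun n => ‖a - s n‖) atTop (𝓝 0) := by
      have h4 := (tendsto_const_nhds (x := a)).sub hlim
      rw [sub_self] at h4
      simpa using h4.norm
    have h5 := (h3.const_mul 2).mul_const ‖f‖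
    simpa using h5
  exact sub_eq_zero.1 (norm_le_zero_iff.1 (ge_of_tendsto' h2 h1))

lemma norm_lregL (g : G) : ‖(lregL g : L2 G →L[ℂ] L2 G)‖ ≤ 1 :=
  LinearMap.mkContinuous_norm_le _ zero_le_one (fun f => by rw [norm_shift, one_mul])

lemma norm_toRed (g : G) : ‖toRed G (sg g)‖ ≤ 1 := by
  rw [norm_redC, coe_toRed, sg, L_single, one_smul]
  exact norm_lregL g

lemma norm_cond (T : L2 G →L[ℂ] L2 G) : ‖cond H T‖ ≤ ‖T‖ := by
  refine ContinuousLinearMap.opNorm_le_bound _ (norm_nonneg _) fun f => ?_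
  rw [cond_apply]
  calc ‖res H 1 (T (ext H f))‖ ≤ ‖T (ext H f)‖ := norm_resL H 1 _
    _ ≤ ‖T‖ * ‖ext H f‖ := T.le_opNorm _
    _ ≤ ‖T‖ * ‖f‖ := mul_le_mul_of_nonneg_left (norm_extL H f) (norm_nonneg _)

instance complete_redC : CompleteSpace (RedC G) := by
  have h1 : Isometry (valR : RedC G → L2 G →L[ℂ] L2 G) := by
    refine Isometry.of_dist_eq fun x y => ?_
    rfl
  refine h1.isUniformInducing.completeSpace ?_
  have h2 : Set.range (valR : RedC G → L2 G →L[ℂ] L2 G) = redSet G := by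
    ext T
    constructor
    · rintro ⟨x, rfl⟩
      exact Subtype.property x
    · intro hT
      exact ⟨⟨T, hT⟩, rfl⟩
  rw [h2]
  exact (isClosed_redSet G).isComplete

/-- FRM -/
theorem t_FRM (hDEN : S_DEN) : S_FRM := by
  intro G _ C
  refine ⟨complete_redC, ?_⟩
  choose t ht using fun x : RedC C => (mem_Fst C).1 (red_le_Fst C (Subtype.property x))
  have hadd : ∀ a b, t (a + b) = t a + t b := fun a b =>
    Gr_unique C (ht (a + b)) ((Gr C).add_mem (ht a) (ht b))
  have hmul : ∀ a b, t (a * b) = t a * t b := fun a b =>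
    Gr_unique C (ht (a * b)) ((Gr C).mul_mem (ht a) (ht b))
  have hone : t 1 = 1 := Gr_unique C (ht 1) (Gr C).one_mem
  have hzero : t 0 = 0 := Gr_unique C (ht 0) (Gr C).zero_mem
  let ψ : RedC C →+* RedC G :=
    { toFun := fun x => ⟨t x, (ht x).2⟩
      map_one' := Subtype.ext hone
      map_mul' := fun a b => Subtype.ext (hmul a b)
      map_zero' := Subtype.ext hzero
      map_add' := fun a b => Subtype.ext (hadd a b) }
  let e : RedC G →+ RedC C :=
    { toFun := fun x => ⟨cond C (valR x), cond_mem C _ (Pool.Agent.H919R4.AS.valR_mem x)⟩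
      map_zero' := Subtype.ext (by
        change cond C (valR 0) = 0
        rw [map_zero, map_zero])
      map_add' := fun a b => Subtype.ext (by
        change cond C (valR (a + b)) = cond C (valR a) + cond C (valR b)
        rw [map_add, map_add]) }
  have he0 : ∀ x, e x = 0 ↔ cond C (valR x) = 0 := by
    intro x
    constructor
    · intro h
      exact congrArg Subtype.val h
    · intro h
      exact Subtype.ext h
  refine ⟨{ α := toRed G
            β := toRed C
            ψ := ψ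
            e := e
            ψ_β := fun a => ?_
            e_ψ_mul := fun y x => ?_
            e_mul_ψ := fun x y => ?_
            e_one := ?_
            norm_e := fun x => ?_
            e_not := fun g hg => ?_
            norm_α := fun g => norm_toRed g
            norm_β := fun c => norm_toRed c
            dense := fun x ε hε => ?_ }, rfl, rfl⟩
  · refine Subtype.ext ?_
    change t (toRed C a) = L (incl C a)
    refine MonoidAlgebra.induction_linear a ?_ ?_ ?_
    · rw [map_zero, map_zero, map_zero, hzero]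
    · intro x y hx hy
      rw [map_add, map_add, map_add, hadd, hx, hy]
    · intro h r
      refine Gr_unique C (ht _) ?_
      rw [incl_single, L_single]
      have h1 := Gr_lreg C (r : ℂ) h
      rw [Int.cast_smul_eq_zsmul, Int.cast_smul_eq_zsmul, ← L_single] at h1
      exact h1
  · refine Subtype.ext ?_
    change cond C (t y * valR x) = valR y * cond C (valR x)
    refine ContinuousLinearMap.ext fun f => ?_
    exact (ht y).1 1 (valR x (ext C f))
  · refine Subtype.ext ?_
    change cond C (valR x * t y) = cond C (valR x) * valR y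
    refine ContinuousLinearMap.ext fun f => ?_
    change res C 1 (valR x (t y (ext C f))) = res C 1 (valR x (ext C (valR y f)))
    have h1 : t y (ext C f) = ext C (valR y f) := ext_rel C (Subtype.property y) (ht y) f
    rw [h1]
  · refine Subtype.ext ?_
    change cond C (valR 1) = 1
    refine ContinuousLinearMap.ext fun f => ?_
    rw [cond_apply, map_one]
    exact res_ext C f
  · exact norm_cond C (valR x)
  · rw [he0, coe_toRed, sg, L_single, one_smul]
    exact cond_lreg_not C hg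
  · obtain ⟨y, hy, S, hS, h⟩ := hDEN G C x ε hε
    refine ⟨y, hy, S, hS, fun x' T hT g hg => ?_⟩
    rw [he0]
    exact h x' T (fun g hg => (he0 _).1 (hT g hg)) g hg

end

end Pool.Agent.V5helper1.ZM
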